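import Pool.Agent.Helper13.JS.St
import Pool.Agent.Helper15.AB.M_RG

/-!
# Project JS (MP_924f75_nt), module B2: regrouping by conductors
-/

set_option autoImplicit false

namespace Pool.Agent.Helper14.JS

open Finset ArithmeticFunction Pool.Agent.Helper13.JS
open Pool.Agent.Helper15.AB (SP SN)

theorem SP_nonneg (F : (ℕ → ℂ) → ℝ) (hF : ∀ f, 0 ≤ F f) (r : ℕ) : 0 ≤ SP F r := by
  unfold SP
  split_ifs
  · exact le_rfl
  · exact sum_nonneg fun _ _ => hF _

theorem SP_mul (G : ℕ → (ℕ → ℂ) → ℝ)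
    (hG : ∀ (r k : ℕ) (f : ℕ → ℂ), (∀ n, ¬ Nat.Coprime n r → f n = 0) → G (r * k) f = G k f)
    (r k : ℕ) : SP (G (r * k)) r = SP (G k) r := by
  unfold SP
  by_cases h : r = 0
  · rw [dif_pos h, dif_pos h]
  · rw [dif_neg h, dif_neg h]
    refine sum_congr rfl fun ψ _ => ?_
    refine hG r k _ fun n hn => ?_
    exact ψ.map_nonunit fun hu => hn ((ZMod.isUnit_iff_coprime n r).1 hu)

theorem hB2 : StB2 := by
  classical
  intro G D hG0 hG
  have hin : ∀ r ∈ Ioc 1 D, ∑ q ∈ Icc 1 D, (if r ∣ q then 1 / (Nat.totient q : ℝ) * SP (G q) r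
      else 0) ≤ ∑ k ∈ Icc 1 D, 1 / (Nat.totient k : ℝ) * (1 / (Nat.totient r : ℝ) * SP (G k) r) := by
    intro r hr
    rw [mem_Ioc] at hr
    rw [← sum_filter]
    have hinj : Set.InjOn (fun k : ℕ => r * k) (↑(Icc 1 D) : Set ℕ) := by
      intro a _ b _ h
      exact Nat.eq_of_mul_eq_mul_left (by omega) h
    have hsub : (Icc 1 D).filter (fun q => r ∣ q) ⊆ (Icc 1 D).image (fun k => r * k) := by
      intro q hq
      rw [mem_filter, mem_Icc] at hq
      obtain ⟨⟨h1, h2⟩, k, rfl⟩ := hq
      rw [mem_image]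
      refine ⟨k, ?_, rfl⟩
      rw [mem_Icc]
      constructor
      · rcases Nat.eq_zero_or_pos k with hk | hk
        · subst hk; omega
        · exact hk
      · exact (Nat.le_mul_of_pos_left k (by omega)).trans h2
    calc ∑ q ∈ (Icc 1 D).filter (fun q => r ∣ q), 1 / (Nat.totient q : ℝ) * SP (G q) r
        ≤ ∑ q ∈ (Icc 1 D).image (fun k => r * k), 1 / (Nat.totient q : ℝ) * SP (G q) r := by
          apply sum_le_sum_of_subset_of_nonneg hsub
          intro q _ _
          exact mul_nonneg (by positivity) (SP_nonneg _ (hG0 q) r)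
      _ = ∑ k ∈ Icc 1 D, 1 / (Nat.totient (r * k) : ℝ) * SP (G (r * k)) r := sum_image hinj
      _ ≤ _ := by
          refine sum_le_sum fun k hk => ?_
          rw [mem_Icc] at hk
          rw [SP_mul G hG, ← mul_assoc]
          refine mul_le_mul_of_nonneg_right ?_ (SP_nonneg _ (hG0 k) r)
          rw [one_div_mul_one_div]
          have hr0 : 0 < Nat.totient r := Nat.totient_pos.2 (by omega)
          have hk0 : 0 < Nat.totient k := Nat.totient_pos.2 (by omega)
          apply one_div_le_one_div_of_le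
          · exact_mod_cast Nat.mul_pos hk0 hr0
          · have := Nat.totient_super_multiplicative r k
            rw [mul_comm (Nat.totient k : ℝ)]
            exact_mod_cast this
  calc ∑ q ∈ Icc 1 D, 1 / (Nat.totient q : ℝ) * SN (G q) q
      ≤ ∑ q ∈ Icc 1 D, 1 / (Nat.totient q : ℝ) *
          ∑ r ∈ Ioc 1 D, (if r ∣ q then SP (G q) r else 0) := by
        refine sum_le_sum fun q hq => ?_
        have := Pool.Agent.Helper15.AB.RG.SN_le (G q) (hG0 q) hq
        exact mul_le_mul_of_nonneg_left this (by positivity)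
    _ = ∑ r ∈ Ioc 1 D, ∑ q ∈ Icc 1 D, (if r ∣ q then 1 / (Nat.totient q : ℝ) * SP (G q) r
          else 0) := by
        simp_rw [mul_sum]
        rw [sum_comm]
        refine sum_congr rfl fun r _ => sum_congr rfl fun q _ => ?_
        split_ifs
        · rfl
        · rw [mul_zero]
    _ ≤ ∑ r ∈ Ioc 1 D, ∑ k ∈ Icc 1 D,
          1 / (Nat.totient k : ℝ) * (1 / (Nat.totient r : ℝ) * SP (G k) r) := sum_le_sum hin
    _ = _ := by
        rw [sum_comm]
        refine sum_congr rfl fun k _ => ?_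
        rw [mul_sum]

end Pool.Agent.Helper14.JS
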